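import Mathlib
import Pool.Agent.H209R2.EHMain

/-!
# All elliptic Hall algebra operators at `t = 1`
-/

set_option autoImplicit false

namespace Pool.Agent.Y849.EH

open MvPolynomial Finset Pool.Agent.H209R2.EH

/-- all coefficients of `F` are regular at `t = 1`, with values regular at `q = 1` -/
def RegularTQ (F : Sym) : Prop :=
  ∀ m, RegAt (1 : RatFunc ℚ) (F.coeff m) ∧ RegAt (1 : ℚ) (valAt 1 (F.coeff m))

/-- the operators obtained from multiplications by symmetric functions regular at `t = 1`, all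
`D_k` (`k ∈ ℤ`) and all `Q_{m,n}` (`m, n ≥ 0`) by sums, products, multiplication by scalars regular
at `t = 1`, and the bracket `M⁻¹ [A, B]` -/
inductive Hall (r : ℕ) (σ τ : ℤˣ) : Module.End KK Sym → Prop
  | mult (g : Sym) (hg : RegularT1 g) : Hall r σ τ (LinearMap.mulLeft KK g)
  | opD (k : ℤ) : Hall r σ τ (D k)
  | opQ (m n : ℕ) : Hall r σ τ (Q r σ τ m n)
  | smul (c : KK) (hc : RegAt (1 : RatFunc ℚ) c) (A : Module.End KK Sym) (hA : Hall r σ τ A) :
      Hall r σ τ (c • A)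
  | add (A B : Module.End KK Sym) (hA : Hall r σ τ A) (hB : Hall r σ τ B) : Hall r σ τ (A + B)
  | mul (A B : Module.End KK Sym) (hA : Hall r σ τ A) (hB : Hall r σ τ B) : Hall r σ τ (A * B)
  | bracket (A B : Module.End KK Sym) (hA : Hall r σ τ A) (hB : Hall r σ τ B) :
      Hall r σ τ (MK⁻¹ • (A * B - B * A))

lemma Hall.inF {r : ℕ} {σ τ : ℤˣ} {A : Module.End KK Sym} (h : Hall r σ τ A) :
    InF MK (Reg (1 : RatFunc ℚ)) A := by
  induction h with
  | mult g hg => exact InF.mulop ((regularT1_iff g).1 hg)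
  | opD k => exact D_InF goodReg k
  | opQ m n => exact Q_InF goodReg r σ τ m n
  | smul c hc A _ ih => exact InF.smul hc ih
  | add A B _ _ ihA ihB => exact ihA.add ihB
  | mul A B _ _ ihA ihB => exact ihA.mul ihB
  | bracket A B _ _ ihA ihB => exact ihA.br MK_ne ihB

lemma Hall.sum {r : ℕ} {σ τ : ℤˣ} {ι : Type*} (s : Finset ι) (A : ι → Module.End KK Sym)
    (h : ∀ i ∈ s, Hall r σ τ (A i)) : Hall r σ τ (∑ i ∈ s, A i) := by
  classical
  induction s using Finset.induction_on with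
  | empty =>
    have h0 : Hall r σ τ (LinearMap.mulLeft KK (0 : Sym)) := Hall.mult 0
      ((regularT1_iff 0).2 (LR _).zero_mem)
    rw [Finset.sum_empty]
    have e : LinearMap.mulLeft KK (0 : Sym) = 0 := by
      ext x
      simp
    rwa [e] at h0
  | insert a s ha ih =>
    rw [Finset.sum_insert ha]
    exact Hall.add _ _ (h a (Finset.mem_insert_self _ _))
      (ih fun i hi => h i (Finset.mem_insert_of_mem hi))

lemma Hall.list_prod {r : ℕ} {σ τ : ℤˣ} (l : List (Module.End KK Sym))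
    (h : ∀ A ∈ l, Hall r σ τ A) : Hall r σ τ l.prod := by
  induction l with
  | nil =>
    have h0 : Hall r σ τ (LinearMap.mulLeft KK (1 : Sym)) := Hall.mult 1
      ((regularT1_iff 1).2 (LR _).one_mem)
    rw [List.prod_nil]
    have e : LinearMap.mulLeft KK (1 : Sym) = 1 := by
      ext x
      simp
    rwa [e] at h0
  | cons a l ih =>
    rw [List.prod_cons]
    exact Hall.mul _ _ (h a List.mem_cons_self) (ih fun B hB => h B (List.mem_cons_of_mem _ hB))

lemma Hall.theta (r : ℕ) (σ τ : ℤˣ) (a b : ℕ) {d : ℕ} (c : d.Partition → KK)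
    (hc : ∀ μ, RegAt (1 : RatFunc ℚ) (c μ)) : Hall r σ τ (Theta r σ τ a b c) := by
  unfold Theta
  refine Hall.sum _ _ fun μ _ => Hall.smul _ (hc μ) _ (Hall.list_prod _ ?_)
  intro A hA
  rw [List.mem_map] at hA
  obtain ⟨i, _, rfl⟩ := hA
  exact Hall.opQ _ _

/-- every operator of the algebra acts at `t = 1` as multiplication -/
theorem Hall.at_one {r : ℕ} {σ τ : ℤˣ} {A : Module.End KK Sym} (h : Hall r σ τ A) (G : Sym)
    (hG : RegularT1 G) : RegularT1 (A G) ∧ atT1 (A G) = atT1 (A 1) * atT1 G := by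
  have hA := h.inF
  obtain ⟨f, hf⟩ := exists_Red (ev := evR (1 : RatFunc ℚ)) (hA.mem (LR _).one_mem)
  obtain ⟨g, hg⟩ := exists_Red (ev := evR (1 : RatFunc ℚ)) ((regularT1_iff G).1 hG)
  have h1 := Red.apply goodReg.M evR_M hA hg hf
  refine ⟨(regularT1_iff _).2 h1.mem, ?_⟩
  rw [atT1_eq h1, atT1_eq hf, atT1_eq hg, mul_comm]

lemma atT1_C (g : MvPolynomial ℕ+ (RatFunc ℚ)) :
    RegularT1 (MvPolynomial.map RatFunc.C g : Sym) ∧
      atT1 (MvPolynomial.map RatFunc.C g : Sym) = g :=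
  ⟨(regularT1_iff _).2 (Red_C g).mem, atT1_eq (Red_C g)⟩

lemma regularTQ_iff (F : Sym) : RegularTQ F ↔ F ∈ LR V := by
  rw [mem_LR_iff]
  exact ⟨fun h m => h m, fun h m => h m⟩

/-- coefficients of `f_d` are regular as soon as those of `f_d^{(1,1)}` are -/
lemma coeff_regular (r : ℕ) (σ τ : ℤˣ) {d : ℕ} (c : d.Partition → KK)
    (h : RegularTQ (Theta r σ τ 1 1 c 1)) (μ : d.Partition) : c μ ∈ V := by
  classical
  have hF := (regularTQ_iff _).1 h
  by_contra hcon
  have hne : ∃ i ∈ (Finset.univ : Finset d.Partition), c i ≠ 0 :=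
    ⟨μ, Finset.mem_univ _, fun h0 => hcon (by rw [h0]; exact V.zero_mem)⟩
  obtain ⟨ν, _, hν0, hν⟩ := exists_dominant Finset.univ c hne
  have hνV : c ν ∉ V := by
    intro hV
    apply hcon
    have := V.mul_mem (hν μ (Finset.mem_univ _)) hV
    rwa [div_mul_cancel₀ _ hν0] at this
  obtain ⟨hinv, hev⟩ := V_inv hνV
  have hQ : ∀ i : ℕ, ∃ s : ℚ, s ≠ 0 ∧
      (1 ≤ i → Red evV (Q r σ τ i i 1) (s • alQ i (i * (r + 1)))) := by
    intro i
    cases i with
    | zero => exact ⟨1, one_ne_zero, fun h => absurd h (by omega)⟩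
    | succ m =>
      obtain ⟨s, hs, h⟩ := Red_Q_diag r σ τ m
      exact ⟨s, hs, fun _ => h⟩
  choose s hs hred using hQ
  -- the scaled family
  have h1 : Red evV ((c ν)⁻¹ • Theta r σ τ 1 1 c 1) 0 := by
    obtain ⟨b, hb⟩ := exists_Red (ev := evV) hF
    have h2 := hb.smul hinv
    rw [hev, zero_smul] at h2
    exact h2
  have h2 : (c ν)⁻¹ • Theta r σ τ 1 1 c 1 = ∑ μ : d.Partition, (c μ / c ν) •
      ((μ.parts.sort (· ≥ ·)).map fun i => Q r σ τ i i).prod 1 := by
    unfold Theta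
    rw [LinearMap.sum_apply, Finset.smul_sum]
    refine Finset.sum_congr rfl fun μ _ => ?_
    rw [LinearMap.smul_apply, smul_smul]
    simp only [one_mul]
    congr 1
    rw [div_eq_mul_inv, mul_comm]
  have h3 : Red evV (∑ μ : d.Partition, (c μ / c ν) •
      ((μ.parts.sort (· ≥ ·)).map fun i => Q r σ τ i i).prod 1)
      (∑ μ : d.Partition, evV ⟨c μ / c ν, hν μ (Finset.mem_univ _)⟩ •
        ((μ.parts.sort (· ≥ ·)).map fun i => s i • alQ i (i * (r + 1))).prod) := by
    refine Red.sum _ _ _ fun μ _ => Red.smul (hν μ (Finset.mem_univ _)) ?_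
    refine Red.list_prod goodV.M evV_M _ _ _ (fun i _ => Q_InF goodV r σ τ i i) fun i hi => ?_
    rw [Multiset.mem_sort] at hi
    exact hred i (μ.parts_pos hi)
  rw [h2] at h1
  have h4 := h3.unique h1
  have h5 := indep r s (fun i _ => hs i) _ (fun i _ => rfl) _ h4 ν
  have h6 : (⟨c ν / c ν, hν ν (Finset.mem_univ _)⟩ : V) = 1 := by
    apply Subtype.ext
    exact div_self hν0
  rw [h6, map_one] at h5
  exact one_ne_zero h5

end Pool.Agent.Y849.EH
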